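import Pool.Agent.N543.AO.TV

/-!
# Binomial weights tested against oscillating functions and iterated differences
-/

set_option autoImplicit false

namespace Pool.Agent.N949.AO

open Finset

/-- characteristic functions -/
theorem osc {y : ℝ} (hy0 : 1 / 5 ≤ y) (hy1 : y ≤ 5) (t φ : ℝ) (n u : ℕ) :
    |∑ j ∈ range (n + 1), (n.choose j : ℝ) * y ^ j * Real.cos (t * ((u + 2 * j : ℕ) : ℝ) + φ)| ≤
      Real.exp (-(5 / 18 * Real.sin t ^ 2 * n)) * (1 + y) ^ n := by
  have hy : 0 < y := by linarith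
  obtain ⟨z, hz⟩ : ∃ z : ℂ, z = (y : ℂ) * Complex.exp ((2 * t : ℝ) * Complex.I) := ⟨_, rfl⟩
  obtain ⟨c, hc⟩ : ∃ c : ℂ, c = Complex.exp ((t * u + φ : ℝ) * Complex.I) := ⟨_, rfl⟩
  have h1 : c * (1 + z) ^ n = ∑ j ∈ range (n + 1), (((n.choose j : ℝ) * y ^ j : ℝ) : ℂ) *
      Complex.exp ((t * ((u + 2 * j : ℕ) : ℝ) + φ : ℝ) * Complex.I) := by
    rw [add_comm 1 z, add_pow, mul_sum]
    refine sum_congr rfl fun j _ => ?_
    rw [one_pow, mul_one, hz, mul_pow, ← Complex.exp_nat_mul, hc]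
    have e1 : Complex.exp ((t * ((u + 2 * j : ℕ) : ℝ) + φ : ℝ) * Complex.I) =
        Complex.exp ((t * u + φ : ℝ) * Complex.I) *
          Complex.exp ((j : ℂ) * (((2 * t : ℝ) : ℂ) * Complex.I)) := by
      rw [← Complex.exp_add]
      congr 1
      push_cast
      ring
    rw [e1]
    push_cast
    ring
  have h2 : ∑ j ∈ range (n + 1), (n.choose j : ℝ) * y ^ j *
      Real.cos (t * ((u + 2 * j : ℕ) : ℝ) + φ) = (c * (1 + z) ^ n).re := by
    rw [h1, Complex.re_sum]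
    refine sum_congr rfl fun j _ => ?_
    rw [Complex.re_ofReal_mul, Complex.exp_ofReal_mul_I_re]
  rw [h2]
  refine (Complex.abs_re_le_norm _).trans ?_
  rw [norm_mul, norm_pow, hc, Complex.norm_exp_ofReal_mul_I, one_mul]
  have h3 : ‖1 + z‖ ^ 2 = (1 + y) ^ 2 - 4 * y * Real.sin t ^ 2 := by
    rw [Complex.sq_norm, Complex.normSq_apply, hz, Complex.add_re, Complex.add_im,
      Complex.re_ofReal_mul, Complex.im_ofReal_mul, Complex.exp_ofReal_mul_I_re,
      Complex.exp_ofReal_mul_I_im, Complex.one_re, Complex.one_im]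
    have h4 : Real.cos (2 * t) = 1 - 2 * Real.sin t ^ 2 := by
      rw [Real.cos_two_mul, Real.cos_sq']
      ring
    have h5 := Real.sin_sq_add_cos_sq (2 * t)
    have h6 : (1 + y * Real.cos (2 * t)) * (1 + y * Real.cos (2 * t)) +
        (0 + y * Real.sin (2 * t)) * (0 + y * Real.sin (2 * t)) =
        1 + 2 * y * Real.cos (2 * t) +
          y ^ 2 * (Real.sin (2 * t) ^ 2 + Real.cos (2 * t) ^ 2) := by ring
    rw [h6, h5, h4]
    ring
  have h7 : 0 ≤ Real.sin t ^ 2 := sq_nonneg _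
  have h8 : ‖1 + z‖ ≤ Real.exp (-(5 / 18 * Real.sin t ^ 2)) * (1 + y) := by
    refine abs_le_of_sq_le_sq' ?_ (by positivity) |>.2
    rw [h3, mul_pow, ← Real.exp_nat_mul]
    have h9 : 1 - 5 / 9 * Real.sin t ^ 2 ≤
        Real.exp (((2 : ℕ) : ℝ) * (-(5 / 18 * Real.sin t ^ 2))) := by
      have := Real.add_one_le_exp (((2 : ℕ) : ℝ) * (-(5 / 18 * Real.sin t ^ 2)))
      push_cast at this ⊢
      linarith
    have h10 : (1 - 5 / 9 * Real.sin t ^ 2) * (1 + y) ^ 2 ≤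
        Real.exp (((2 : ℕ) : ℝ) * (-(5 / 18 * Real.sin t ^ 2))) * (1 + y) ^ 2 :=
      mul_le_mul_of_nonneg_right h9 (by positivity)
    refine le_trans ?_ h10
    have h11 : 5 / 9 * (1 + y) ^ 2 ≤ 4 * y := by nlinarith
    nlinarith
  calc ‖1 + z‖ ^ n ≤ (Real.exp (-(5 / 18 * Real.sin t ^ 2)) * (1 + y)) ^ n :=
        pow_le_pow_left₀ (norm_nonneg _) h8 n
    _ = _ := by
        rw [mul_pow, ← Real.exp_nat_mul]
        congr 2
        ring

/-- iterated differences -/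
theorem dif (k : ℕ) : ∃ C : ℝ, 0 < C ∧ ∀ (n u : ℕ) (y : ℝ) (h : ℕ → ℝ), 1 / 5 ≤ y → y ≤ 5 →
    (∀ m, |h m| ≤ 1) →
    |∑ j ∈ range (n + 1), (n.choose j : ℝ) * y ^ j *
      ∑ i ∈ range (k + 1), (-1 : ℝ) ^ i * (k.choose i : ℝ) * h (u + 2 * j + 2 * i)| ≤
      C / Real.sqrt (n + 1) ^ k * (1 + y) ^ n := by
  obtain ⟨C, hC, h⟩ := Pool.Agent.N543.AO.TV.tv k
  refine ⟨C * Real.sqrt 2 ^ k + 2 ^ k, by positivity, ?_⟩
  intro n u y g hy0 hy1 hg
  have hy : 0 < y := by linarith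
  rcases Nat.eq_zero_or_pos n with rfl | hn
  · simp only [zero_add, sum_range_one, Nat.choose_zero_right, Nat.cast_one, pow_zero, mul_one,
      one_mul, mul_zero, add_zero, Nat.cast_zero, Real.sqrt_one, one_pow, div_one]
    refine (abs_sum_le_sum_abs _ _).trans ?_
    have h1 : ∑ i ∈ range (k + 1), |(-1 : ℝ) ^ i * (k.choose i : ℝ) * g (u + 2 * i)| ≤
        ∑ i ∈ range (k + 1), (k.choose i : ℝ) := by
      refine sum_le_sum fun i _ => ?_
      rw [abs_mul, abs_mul, abs_pow, abs_neg, abs_one, one_pow, one_mul,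
        abs_of_nonneg (Nat.cast_nonneg _ : (0 : ℝ) ≤ (k.choose i : ℝ))]
      have := mul_le_mul_of_nonneg_left (hg (u + 2 * i)) (Nat.cast_nonneg (k.choose i) :
        (0 : ℝ) ≤ (k.choose i : ℝ))
      linarith
    have h2 : ∑ i ∈ range (k + 1), (k.choose i : ℝ) = 2 ^ k := by
      exact_mod_cast Nat.sum_range_choose k
    rw [h2] at h1
    refine h1.trans ?_
    have : 0 ≤ C * Real.sqrt 2 ^ k := by positivity
    linarith
  · have h1 := h n y (fun j => g (u + 2 * j)) hn hy0 hy1 (fun j => hg _)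
    have h2 : ∑ j ∈ range (n + 1), (n.choose j : ℝ) * y ^ j *
        ∑ i ∈ range (k + 1), (-1 : ℝ) ^ i * (k.choose i : ℝ) * g (u + 2 * j + 2 * i) =
        ∑ j ∈ range (n + 1), (n.choose j : ℝ) * y ^ j *
        ∑ i ∈ range (k + 1), (-1 : ℝ) ^ i * (k.choose i : ℝ) *
          (fun j => g (u + 2 * j)) (j + i) := by
      refine sum_congr rfl fun j _ => ?_
      congr 1
      refine sum_congr rfl fun i _ => ?_
      have e : u + 2 * j + 2 * i = u + 2 * (j + i) := by ring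
      rw [e]
    rw [h2]
    refine h1.trans ?_
    have hn' : (1 : ℝ) ≤ n := by exact_mod_cast hn
    have h3 : Real.sqrt (n + 1) ≤ Real.sqrt 2 * Real.sqrt n := by
      rw [← Real.sqrt_mul (by norm_num)]
      exact Real.sqrt_le_sqrt (by linarith)
    have h4 : Real.sqrt (n + 1) ^ k ≤ Real.sqrt 2 ^ k * Real.sqrt n ^ k := by
      rw [← mul_pow]
      exact pow_le_pow_left₀ (Real.sqrt_nonneg _) h3 k
    have h5 : 0 < Real.sqrt n := Real.sqrt_pos.2 (by linarith)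
    have h6 : 0 < Real.sqrt (n + 1) := Real.sqrt_pos.2 (by linarith)
    have h7 : C / Real.sqrt n ^ k ≤ (C * Real.sqrt 2 ^ k + 2 ^ k) / Real.sqrt (n + 1) ^ k := by
      rw [div_le_div_iff₀ (by positivity) (by positivity)]
      have h8 := mul_le_mul_of_nonneg_left h4 hC.le
      have h9 : 0 ≤ 2 ^ k * Real.sqrt n ^ k := by positivity
      nlinarith
    have h8 := mul_le_mul_of_nonneg_right h7 (show 0 ≤ (1 + y) ^ n by positivity)
    refine le_trans (le_of_eq ?_) h8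
    ring

end Pool.Agent.N949.AO
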