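import Mathlib

/-!
# Iterated differences
-/

set_option autoImplicit false

namespace Pool.Agent.N949.AO

open Finset

/-- iterated differences of order `k + 1` -/
theorem pascal (k : ℕ) (g : ℕ → ℝ) :
    ∑ i ∈ range (k + 1 + 1), (-1 : ℝ) ^ i * ((k + 1).choose i : ℝ) * g i =
      ∑ i ∈ range (k + 1), (-1 : ℝ) ^ i * (k.choose i : ℝ) * (g i - g (i + 1)) := by
  rw [sum_range_succ']
  have h1 : ∑ i ∈ range (k + 1), (-1 : ℝ) ^ (i + 1) * ((k + 1).choose (i + 1) : ℝ) * g (i + 1) =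
      -∑ i ∈ range (k + 1), (-1 : ℝ) ^ i * (k.choose i : ℝ) * g (i + 1) +
      ∑ i ∈ range (k + 1), (-1 : ℝ) ^ (i + 1) * (k.choose (i + 1) : ℝ) * g (i + 1) := by
    rw [← sum_neg_distrib, ← sum_add_distrib]
    refine sum_congr rfl fun i _ => ?_
    rw [Nat.choose_succ_succ]
    push_cast
    ring
  have h2 : ∑ i ∈ range (k + 1), (-1 : ℝ) ^ i * (k.choose i : ℝ) * g i =
      ∑ i ∈ range (k + 1), (-1 : ℝ) ^ (i + 1) * (k.choose (i + 1) : ℝ) * g (i + 1) + g 0 := by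
    rw [sum_range_succ', sum_range_succ (fun i => (-1 : ℝ) ^ (i + 1) *
      (k.choose (i + 1) : ℝ) * g (i + 1))]
    rw [Nat.choose_succ_self]
    simp
  have h3 : ∑ i ∈ range (k + 1), (-1 : ℝ) ^ i * (k.choose i : ℝ) * (g i - g (i + 1)) =
      ∑ i ∈ range (k + 1), (-1 : ℝ) ^ i * (k.choose i : ℝ) * g i -
      ∑ i ∈ range (k + 1), (-1 : ℝ) ^ i * (k.choose i : ℝ) * g (i + 1) := by
    rw [← sum_sub_distrib]
    refine sum_congr rfl fun i _ => ?_
    ring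
  rw [h1, h3, h2]
  simp
  ring

end Pool.Agent.N949.AO
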