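import Pool.Agent.R131.LT.Fin
import Pool.Agent.R965.HP.HexTwo

/-!
# Walks with few moves
-/

set_option autoImplicit false

namespace Pool.Agent.N949.AO

open Finset TH966.AK Pool.Agent.R131.LS Pool.Agent.R131.LT
open scoped Classical

theorem Ex_bad_le {A : P → P → Prop} (Z : Rule A) {D : P → Prop} (e : P) {x : ℝ} (hx0 : 0 < x)
    (N : ℕ) {M : ℕ} (hM : 1 ≤ M) {θ C0 : ℝ} (hθ : 0 ≤ θ) (hθ1 : θ < 1) (hC0 : 0 ≤ C0)
    (hp : ∀ n : ℕ, x ^ n *
      (((Kw (AD A D) n).filter (fun w => M * ((ruleD Z D).B w).card ≤ n)).card : ℝ) ≤ C0 * θ ^ n)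
    (n1 : ℕ) (hn1 : 1 ≤ n1) (hK : ∀ m, m < n1 → (sysE (ruleD Z D) e).K m = ∅) {ω : ℝ}
    (hω : 2 * ω ≤ 1 / (2 * M)) :
    Ex (sysE (ruleD Z D) e) x N (bd (sysE (ruleD Z D) e) (2 * ω)) ≤ C0 / (1 - θ) * θ ^ n1 := by
  have hM' : (1 : ℝ) ≤ M := by exact_mod_cast hM
  have h1 : ∀ m, x ^ m * ∑ w ∈ (sysE (ruleD Z D) e).K m,
      bd (sysE (ruleD Z D) e) (2 * ω) m w ≤ if n1 ≤ m then C0 * θ ^ m else 0 := by
    intro m
    split_ifs with h
    · have h2 : ∑ w ∈ (sysE (ruleD Z D) e).K m, bd (sysE (ruleD Z D) e) (2 * ω) m w ≤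
          (((Kw (AD A D) m).filter (fun w => M * ((ruleD Z D).B w).card ≤ m)).card : ℝ) := by
        unfold bd
        rw [← Finset.sum_filter, Finset.sum_const, nsmul_one, Nat.cast_le]
        refine Finset.card_le_card fun w hw => ?_
        rw [mem_filter] at hw ⊢
        obtain ⟨h3, h4⟩ := hw
        have h3' : w ∈ (Kw (AD A D) m).filter (fun w => w.getLast? = some e) := h3
        rw [mem_filter] at h3'
        refine ⟨h3'.1, ?_⟩
        have h4' : (((ruleD Z D).B w).card : ℝ) < 2 * ω * ((m : ℝ) + 1) := h4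
        have hm1 : (1 : ℝ) ≤ m := by
          have : 1 ≤ m := by omega
          exact_mod_cast this
        have h5 : (M : ℝ) * ((ruleD Z D).B w).card ≤ m := by
          have h6 : (((ruleD Z D).B w).card : ℝ) ≤ 1 / (2 * M) * ((m : ℝ) + 1) :=
            h4'.le.trans (mul_le_mul_of_nonneg_right hω (by positivity))
          have h6' : (M : ℝ) * ((ruleD Z D).B w).card ≤ M * (1 / (2 * M) * ((m : ℝ) + 1)) :=
            mul_le_mul_of_nonneg_left h6 (by positivity)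
          have h7 : (M : ℝ) * (1 / (2 * M) * ((m : ℝ) + 1)) = (m + 1) / 2 := by
            field_simp
          rw [h7] at h6'
          linarith
        exact_mod_cast h5
      exact (mul_le_mul_of_nonneg_left h2 (by positivity)).trans (hp m)
    · rw [hK m (by omega)]
      simp
  unfold Ex
  refine (Finset.sum_le_sum fun m _ => h1 m).trans ?_
  rw [← Finset.sum_filter, ← Finset.mul_sum]
  have h2 : (range N).filter (fun m => n1 ≤ m) = Ico n1 N := by
    ext m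
    simp only [mem_filter, mem_range, mem_Ico]
    omega
  have hθ2 : 0 < 1 - θ := by linarith
  have h3 : ∑ m ∈ Ico n1 N, θ ^ m ≤ θ ^ n1 / (1 - θ) := by
    rw [Finset.sum_Ico_eq_sum_range]
    have h4 : ∑ k ∈ range (N - n1), θ ^ (n1 + k) = θ ^ n1 * ∑ k ∈ range (N - n1), θ ^ k := by
      rw [Finset.mul_sum]
      exact Finset.sum_congr rfl fun k _ => pow_add _ _ _
    rw [h4, div_eq_mul_inv]
    refine mul_le_mul_of_nonneg_left ?_ (by positivity)
    have h5 := geom_sum_mul_neg θ (N - n1)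
    rw [← one_div, le_div_iff₀ hθ2, h5]
    have : 0 ≤ θ ^ (N - n1) := by positivity
    linarith
  rw [h2]
  refine (mul_le_mul_of_nonneg_left h3 hC0).trans (le_of_eq ?_)
  ring

/-- in all domains, at the critical point -/
theorem bad_crit : ∃ (M : ℕ) (θ C0 : ℝ), 1 ≤ M ∧ 0 ≤ θ ∧ θ < 1 ∧ 0 ≤ C0 ∧
    ∀ D : P → Prop, D 0 → ∀ n : ℕ, xr ^ n * (((Kw (AD Hex.A D) n).filter
      (fun w => M * ((ruleD Hex.rule D).B w).card ≤ n)).card : ℝ) ≤ C0 * θ ^ n := by
  obtain ⟨M, θ, C, hM, hθ0, hθ1, hC, h⟩ := Pool.Agent.R965.HP.bad_any Hex.rule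
    (@H982.one_le_mu H982P.hexL) Pool.Agent.R965.HP.hex_poor Pool.Agent.R965.HP.hex_hup
  refine ⟨M, θ, C, hM, hθ0.le, hθ1, hC, fun D h0 n => ?_⟩
  have h1 := h D h0 n
  have h2 : (((Kw (AD Hex.A D) n).filter
      (fun w => M * ((ruleD Hex.rule D).B w).card ≤ n)).card : ℝ) ≤
      (((Pool.Agent.R965.HP.ruleD Hex.rule D).sys.bad M n).card : ℝ) := by
    rw [Nat.cast_le]
    refine Finset.card_le_card fun w hw => ?_
    rw [mem_filter] at hw
    unfold Sys.bad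
    rw [mem_filter]
    exact ⟨hw.1, Or.inr hw.2⟩
  have h3 : xr * (θ * @H982.mu H982P.hexL) = θ := by
    rw [Pool.Agent.H976R3.HPL.mu_hex]
    unfold xr H978R2.Hex.mu0
    have : 0 < Real.sqrt (2 + Real.sqrt 2) := by positivity
    field_simp
  calc xr ^ n * _ ≤ xr ^ n * (C * (θ * @H982.mu H982P.hexL) ^ n) :=
        mul_le_mul_of_nonneg_left (h2.trans h1) (pow_nonneg xr_pos.le _)
    _ = C * (xr * (θ * @H982.mu H982P.hexL)) ^ n := by
        rw [mul_pow xr]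
        ring
    _ = _ := by rw [h3]

/-- in both cases -/
theorem bad_both : ∃ (ω θ C0 : ℝ), 0 < ω ∧ 0 < θ ∧ θ < 1 ∧ 0 ≤ C0 ∧
    ∀ (D : Set P) (p q : P) (x : ℝ) (N n1 : ℕ), p ∈ D →
      (x = xr ∨ (Closed D ∧ xr ≤ x ∧ x ≤ 544 / 1000)) → 1 ≤ n1 →
      (∀ m, m < n1 → (Yp D p q).K m = ∅) →
      Ex (Yp D p q) x N (bd (Yp D p q) (2 * ω)) ≤ C0 * θ ^ n1 := by
  obtain ⟨M, θ, C, hM, hθ0, hθ1, hC, h⟩ := bad_crit
  obtain ⟨C1, hC1⟩ := Hex.poor
  obtain ⟨θ2, hθ2⟩ : ∃ θ2 : ℝ, θ2 = 544 / 1000 * (459 / 250) := ⟨_, rfl⟩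
  have h21 : 0 < θ2 := by rw [hθ2]; norm_num
  have h22 : θ2 < 1 := by rw [hθ2]; norm_num
  obtain ⟨ω, hω⟩ : ∃ ω : ℝ, ω = 1 / (4 * (M + 10000)) := ⟨_, rfl⟩
  have hM' : (1 : ℝ) ≤ M := by exact_mod_cast hM
  have hω0 : 0 < ω := by rw [hω]; positivity
  have hω1 : 2 * ω ≤ 1 / (2 * M) := by
    rw [hω]
    have : 2 * (1 / (4 * ((M : ℝ) + 10000))) = 1 / (2 * ((M : ℝ) + 10000)) := by
      field_simp
      ring
    rw [this]
    exact one_div_le_one_div_of_le (by positivity) (by linarith)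
  have hω2 : 2 * ω ≤ 1 / (2 * ((10000 : ℕ) : ℝ)) := by
    rw [hω]
    have : 2 * (1 / (4 * ((M : ℝ) + 10000))) = 1 / (2 * ((M : ℝ) + 10000)) := by
      field_simp
      ring
    rw [this]
    exact one_div_le_one_div_of_le (by positivity) (by push_cast; linarith)
  obtain ⟨G, hG⟩ : ∃ G : ℝ, G = C / (1 - θ) + |C1| / (1 - θ2) := ⟨_, rfl⟩
  have g1 : 0 ≤ C / (1 - θ) := div_nonneg hC (by linarith)
  have g2 : 0 ≤ |C1| / (1 - θ2) := div_nonneg (abs_nonneg _) (by linarith)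
  refine ⟨ω, max θ θ2, G, hω0, lt_max_of_lt_right h21, max_lt hθ1 h22, by rw [hG]; linarith, ?_⟩
  intro D p q x N n1 hp hx hn1 hK
  have h0 : Dp D p 0 := by
    unfold Dp
    rwa [pi_zero]
  rcases hx with rfl | ⟨hcl, hx1, hx2⟩
  · have h1 := Ex_bad_le Hex.rule (ps p q) xr_pos N hM hθ0 hθ1 hC (h (Dp D p) h0) n1 hn1 hK hω1
    refine h1.trans (mul_le_mul (by rw [hG]; linarith) ?_ (pow_nonneg hθ0 _)
      (by rw [hG]; linarith))
    exact pow_le_pow_left₀ hθ0 (le_max_left _ _) _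
  · have hx0 : 0 < x := lt_of_lt_of_le xr_pos hx1
    have hclD : Cl D := by
      intro v hv
      obtain ⟨u, u', h1, h2, h3, h4⟩ := hcl v hv
      rw [nbr_eq] at h2 h3
      exact ⟨u, u', h1, h2, h3, h4⟩
    have h1 := Ex_bad_le Hex.rule (D := Dp D p) (ps p q) hx0 N (M := 10000) (by norm_num)
      h21.le h22 (abs_nonneg C1) (fun n => by
        have h3 := poorD Hex.rule h0 (fun U U' hT hx => closed hclD p U U' hT hx) hC1 n
        calc x ^ n * _ ≤ x ^ n * (C1 * (459 / 250) ^ n) :=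
              mul_le_mul_of_nonneg_left h3 (by positivity)
          _ = C1 * (x * (459 / 250)) ^ n := by rw [mul_pow]; ring
          _ ≤ |C1| * θ2 ^ n := by
              refine mul_le_mul (le_abs_self _) (pow_le_pow_left₀ (by positivity) ?_ n)
                (by positivity) (abs_nonneg _)
              rw [hθ2]
              exact mul_le_mul_of_nonneg_right hx2 (by norm_num)) n1 hn1 hK hω2
    refine h1.trans (mul_le_mul (by rw [hG]; linarith) ?_ (pow_nonneg h21.le _)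
      (by rw [hG]; linarith))
    exact pow_le_pow_left₀ h21.le (le_max_right _ _) _

end Pool.Agent.N949.AO
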