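import Pool.Agent.N949.AO.Dom
import Pool.Agent.N949.AO.Osc
import Pool.Agent.N949.AO.Bad

/-!
# The number of steps of the walk of the O(0) model in a domain: characteristic function and
# iterated differences
-/

set_option autoImplicit false

namespace Pool.Agent.N949.AO

open Finset TH966.AK Pool.Agent.R131.LS Pool.Agent.R131.LT
open Pool.Agent.Y981.QB
open Pool.Agent.W832.HR (Nbr Traj xc Z emb lv HD Hd Bd)
open scoped Classical ENNReal

theorem ins_map' {D : Set P} {p q : P} {m : ℕ} {w : List P} {z : List P × List P}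
    (hw : w ∈ (Yp D p q).K m) (hz : z ∈ (ruleD Hex.rule (Dp D p)).S w) : ∃ L R : List P,
    z.1.length = 3 ∧ z.2.length = 5 ∧
    w.map (pi p) = L ++ z.1.map (pi p) ++ R ∧
    (Rule.rep w z.1 z.2).map (pi p) = L ++ z.2.map (pi p) ++ R := by
  obtain ⟨U, U'⟩ := z
  have hw' : w ∈ (Kw (AD Hex.A (Dp D p)) m).filter (fun w => w.getLast? = some (ps p q)) := hw
  rw [Rule.mem_S] at hz
  rw [mem_filter, (ruleD Hex.rule (Dp D p)).mem_K] at hw'
  obtain ⟨L, R, h1, h2, -⟩ := Rule.rep_all ((ruleD Hex.rule (Dp D p)).pair _ _ hz.1)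
    hw'.1.2 hz.2
  obtain ⟨⟨a, b, c, e1, e2, -⟩, -⟩ := hz.1
  simp only at e1 e2 h1 h2
  refine ⟨L.map (pi p), R.map (pi p), ?_, ?_, ?_, ?_⟩
  · rw [e1]; rfl
  · rw [e2]; rfl
  · conv_lhs => rw [h1]
    simp
  · rw [h2]; simp

/-- `F` does not change when a piece of two steps is replaced by a piece of four steps, both of
which avoid `V` -/
def Unch (D : Set P) (p q : P) (V : Finset P) (F : List P → ℝ) : Prop :=
  ∀ L U U' R : List P, U.length = 3 → U'.length = 5 → (∀ v ∈ U ++ U', v ∉ V) →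
    L ++ U ++ R ∈ Traj D p q → L ++ U' ++ R ∈ Traj D p q → F (L ++ U' ++ R) = F (L ++ U ++ R)

theorem x_sq {x : ℝ} (h1 : xr ≤ x) (h2 : x ≤ 1) : 1 / 5 ≤ x ^ 2 ∧ x ^ 2 ≤ 5 := by
  have h3 := xr_pos
  have h4 : xr ^ 2 = 1 / (2 + Real.sqrt 2) := by
    unfold xr
    rw [div_pow, one_pow, Real.sq_sqrt (by positivity)]
  have h5 : Real.sqrt 2 ≤ 3 := by
    rw [Real.sqrt_le_left (by norm_num)]
    norm_num
  have h6 : (1 : ℝ) / 5 ≤ xr ^ 2 := by
    rw [h4]
    exact one_div_le_one_div_of_le (by positivity) (by linarith)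
  constructor
  · exact h6.trans (pow_le_pow_left₀ h3.le h1 2)
  · nlinarith

theorem num_a {C δ : ℝ} (h : 100 ≤ C) (hδ : 0 < δ) (h2 : C * δ ≤ 1) : δ ≤ 1 / 100 := by
  nlinarith

theorem num_b {C c2 X δ : ℝ} (hc2 : 0 < c2) (hC : 0 < C) (h : 1 / c2 ≤ C) (hX : c2 ≤ X)
    (hδ : 0 < δ) : 1 / (C * δ) ≤ X / δ := by
  rw [div_le_div_iff₀ (by positivity) hδ]
  rw [div_le_iff₀ hc2] at h
  have h1 : C * c2 ≤ C * X := mul_le_mul_of_nonneg_left hX hC.le
  have h2 : 1 ≤ C * X := h.trans h1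
  have h3 : 1 * δ ≤ C * X * δ := mul_le_mul_of_nonneg_right h2 hδ.le
  linarith

theorem exp_num {c δ : ℝ} {n1 : ℕ} (hc : 0 ≤ c) {c1 : ℝ} (hn1 : c1 / δ ≤ n1) :
    Real.exp (-(c * n1)) ≤ Real.exp (-(c * c1 / δ)) := by
  refine Real.exp_le_exp.2 (neg_le_neg ?_)
  rw [mul_div_assoc]
  exact mul_le_mul_of_nonneg_left hn1 hc

theorem fin (W : Set ℂ) (hW : IsOpen W) (hc : IsConnected W)
    (a b : ℂ) (hab : a ≠ b) (ε ε' : ℝ) (hε : ε = 1 ∨ ε = -1) (hε' : ε' = 1 ∨ ε' = -1) (r : ℝ)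
    (hr : 0 < r) (ha : HD a ε r ⊆ W) (hb : HD b ε' r ⊆ W) (M : ℝ) :
    ∃ K : Set ℂ, K ⊆ W ∧ IsCompact K ∧ ∃ C : ℝ, 1 ≤ C ∧ ∃ A : ℕ → ℝ,
      ∀ δ : ℝ, 0 < δ → C * δ ≤ 1 →
      ∀ (D : Set P) (p q : P), Bd ε p → Bd ε' q →
      C * ‖(δ : ℂ) * emb p - a‖ ≤ 1 → C * ‖(δ : ℂ) * emb q - b‖ ≤ 1 →
      (∀ v : P, (δ : ℂ) * emb v ∈ K → v ∈ D) → Hd δ ε r p ⊆ D → Hd δ ε' r q ⊆ D →
      (∀ v ∈ D, ‖(δ : ℂ) * emb v‖ ≤ M) →
      ∀ x : ℝ, (x = xr ∨ (Closed D ∧ xr ≤ x ∧ x ≤ 544 / 1000)) →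
      (Traj D p q).Finite ∧ 0 < Zx x D p q ∧
      (∀ l ∈ Traj D p q, 1 ≤ C * δ * ((l.length - 1 : ℕ) : ℝ)) ∧
      ∀ (V : Finset P) (F : List P → ℝ), C * δ * V.card ≤ 1 → (∀ l ∈ Traj D p q, |F l| ≤ 1) →
        Unch D p q V F →
        (∀ t φ : ℝ,
          |Mx x D p q (fun l => F l * Real.cos (t * ((l.length - 1 : ℕ) : ℝ) + φ))| ≤
          C * (Mx x D p q (fun l => |F l| *
            Real.exp (-(Real.sin t ^ 2 * ((l.length - 1 : ℕ) : ℝ) / C))) +
            Real.exp (-(1 / (C * δ))))) ∧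
        ∀ (k : ℕ) (h : ℕ → ℝ), (∀ n, |h n| ≤ 1) →
          |Mx x D p q (fun l => F l * ∑ i ∈ range (k + 1), (-1 : ℝ) ^ i * (k.choose i : ℝ) *
            h (l.length - 1 + 2 * i))| ≤
          A k * (Mx x D p q (fun l => |F l| / Real.sqrt (((l.length - 1 : ℕ) : ℝ) + 1) ^ k) +
            Real.exp (-(1 / (C * δ)))) := by
  obtain ⟨K, hK, hKc, C₁, hC₁, h⟩ := Pool.Agent.Y981.Sup.low W hW hc a b hab ε ε' hε hε' r hr ha hb
  obtain ⟨C₃, hC₃, hcard⟩ := domain_card M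
  obtain ⟨ω, θ, C0, hω, hθ0, hθ1, hC0, hbadb⟩ := bad_both
  obtain ⟨κ, hκ, hmain⟩ := main_le Hex.rule.CC
  choose C₂ hC₂ hdif using dif
  have hκ0 : (0 : ℝ) < κ := by exact_mod_cast hκ
  have hab' : 0 < ‖a - b‖ := norm_pos_iff.2 (sub_ne_zero.2 hab)
  obtain ⟨CC, hCC⟩ : ∃ c : ℝ, c = (Hex.rule.CC : ℝ) := ⟨_, rfl⟩
  have hCC0 : 0 ≤ CC := by rw [hCC]; exact Nat.cast_nonneg _
  obtain ⟨s, hs⟩ : ∃ s : ℝ, s = Real.sqrt θ := ⟨_, rfl⟩
  have hs0 : 0 < s := by rw [hs]; exact Real.sqrt_pos.2 hθ0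
  have hss : s * s = θ := by rw [hs]; exact Real.mul_self_sqrt hθ0.le
  have hs1 : s < 1 := by
    rw [hs, Real.sqrt_lt' one_pos, one_pow]
    exact hθ1
  obtain ⟨B, hB0, hB⟩ := absorb C₁ hs0.le hs1
  obtain ⟨lam, hlam⟩ : ∃ lam : ℝ, lam = -Real.log s := ⟨_, rfl⟩
  have hlam0 : 0 < lam := by
    rw [hlam]
    have := Real.log_neg hs0 hs1
    linarith
  obtain ⟨c1, hc1⟩ : ∃ c1 : ℝ, c1 = ‖a - b‖ / 2 := ⟨_, rfl⟩
  have hc1pos : 0 < c1 := by rw [hc1]; positivity
  obtain ⟨G, hG⟩ : ∃ G : ℝ, G = 2 * C0 * B / c1 ^ C₁ + 1 := ⟨_, rfl⟩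
  have hG0 : 0 ≤ 2 * C0 * B / c1 ^ C₁ := by positivity
  obtain ⟨c2, hc2⟩ : ∃ c2 : ℝ, c2 = min (lam * c1) (ω / κ * c1) := ⟨_, rfl⟩
  have hc2pos : 0 < c2 := by rw [hc2]; exact lt_min (by positivity) (by positivity)
  have d1 : 0 < 32 / ‖a - b‖ := by positivity
  have d2 : 0 < 1 / c1 := by positivity
  have d3 : 0 < 1 / c2 := by positivity
  have d4 : 0 ≤ CC / (ω * c1) := by positivity
  have d5 : 0 < 18 * κ / (5 * ω) := by positivity
  obtain ⟨C, hCdef⟩ : ∃ C : ℝ, C = C₁ + 100 + 32 / ‖a - b‖ + 1 / c1 + 1 / c2 +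
    CC / (ω * c1) + 18 * κ / (5 * ω) + G := ⟨_, rfl⟩
  have hC1r : (9 : ℝ) ≤ C₁ := by exact_mod_cast hC₁
  have hC100 : 100 ≤ C := by rw [hCdef]; linarith
  have hCC1 : (C₁ : ℝ) ≤ C := by rw [hCdef]; linarith
  have hCab : 32 / ‖a - b‖ ≤ C := by rw [hCdef]; linarith
  have hCc : 1 / c1 ≤ C := by rw [hCdef]; linarith
  have hCc2 : 1 / c2 ≤ C := by rw [hCdef]; linarith
  have hCV : CC / (ω * c1) ≤ C := by rw [hCdef]; linarith
  have hCω : 18 * κ / (5 * ω) ≤ C := by rw [hCdef]; linarith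
  have hCG : G ≤ C := by rw [hCdef]; linarith
  have hCpos : 0 < C := by linarith
  refine ⟨K, hK, hKc, C, by linarith,
    fun k => C₂ k * (Real.sqrt (κ / ω) ^ k + G), ?_⟩
  intro δ hδ hCδ D p q hp hq hpa hqb hKD hpD hqD hDM x hx
  have hxr : xr ≤ x ∧ x ≤ 1 := by
    rcases hx with rfl | ⟨-, h1, h2⟩
    · exact ⟨le_rfl, xr_le⟩
    · exact ⟨h1, by linarith⟩
  have hx0 : 0 < x := lt_of_lt_of_le xr_pos hxr.1
  have hx1 : x ≤ 1 := hxr.2
  obtain ⟨hy0, hy1⟩ := x_sq hxr.1 hxr.2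
  have hδ1 : δ ≤ 1 / 100 := num_a hC100 hδ hCδ
  have hmono : ∀ x : ℝ, 0 ≤ x → C * x ≤ 1 → C₁ * x ≤ 1 := fun x hx h1 =>
    (mul_le_mul_of_nonneg_right hCC1 hx).trans h1
  obtain ⟨hpq, hlow⟩ := h δ hδ (hmono δ hδ.le hCδ) D p q hp hq (hmono _ (norm_nonneg _) hpa)
    (hmono _ (norm_nonneg _) hqb) hKD hpD hqD
  obtain ⟨D', hD', hDc⟩ := hcard δ hδ (by linarith) D hDM
  have hpm : p ∈ D := hpD (by
    show ‖(δ : ℂ) * emb p - δ * emb p‖ < r ∧ 0 ≤ ε * (lv (emb p) - lv (emb p))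
    simp [hr])
  have hfin : (Traj D p q).Finite := by
    rw [traj_eq, ← coe_TT hpm D' hD']
    exact Finset.finite_toSet _
  have hZlow : δ ^ C₁ ≤ Zx x D p q := by
    have h1 := hlow D (Set.Subset.refl D)
    rw [Z_eq hpm D' hD'] at h1
    have h2 : δ ^ C₁ ≤ Zr D p q := by
      refine (ENNReal.ofReal_le_ofReal_iff ?_).1 h1
      unfold Zr
      exact finsum_nonneg fun l => finsum_nonneg fun _ => by
        have := xr_pos
        positivity
    refine h2.trans ?_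
    unfold Zr Zx
    rw [finsum_mem_eq_finite_toFinset_sum _ hfin, finsum_mem_eq_finite_toFinset_sum _ hfin]
    exact Finset.sum_le_sum fun l _ => pow_le_pow_left₀ xr_pos.le hxr.1 _
  have hZ : 0 < Zx x D p q := lt_of_lt_of_le (by positivity) hZlow
  have hgood := good_Yx (q := q) hpm D' hD' hx0 hx1
  -- the walks are long
  have hdL : c1 / δ ≤ dst p q := by
    rw [hc1]
    exact far hδ (by
      have := mul_le_mul_of_nonneg_right hCab hab'.le
      rw [div_mul_cancel₀ _ hab'.ne'] at this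
      linarith) (by linarith) hpa hqb
  have hlong : ∀ m, ∀ w ∈ (Yp D p q).K m, c1 / δ ≤ m := by
    intro m w hw
    obtain ⟨h1, h2⟩ := (mem_Yp hpm).1 hw
    refine hdL.trans (sw_far (l := w.map (pi p)) (n := m) ?_ h2.2.1).1
    refine ⟨by rw [List.length_map, h1], h2.1, h2.2.2.2.1, h2.2.2.1⟩
  obtain ⟨n1, hn1⟩ : ∃ n1 : ℕ, n1 = ⌈c1 / δ⌉₊ := ⟨_, rfl⟩
  have hcd : 0 < c1 / δ := by positivity
  have hn1c : c1 / δ ≤ n1 := by rw [hn1]; exact Nat.le_ceil _
  have hn1p : 0 < (n1 : ℝ) := lt_of_lt_of_le hcd hn1c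
  have hn1' : 1 ≤ n1 := by exact_mod_cast hn1p
  have hKn : ∀ m, m < n1 → (Yp D p q).K m = ∅ := by
    intro m hm
    rw [Finset.eq_empty_iff_forall_notMem]
    intro w hw
    have h1 := hlong m w hw
    have h2 : n1 ≤ m := by
      rw [hn1]
      exact Nat.ceil_le.2 h1
    omega
  have hKbig : ∀ m, D'.card ≤ m → (Yp D p q).K m = ∅ := hgood.big
  refine ⟨hfin, hZ, ?_, ?_⟩
  · intro l hl
    have hl' : l ∈ Tj D p q := by rw [← traj_eq]; exact hl
    have hne : l ≠ [] := by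
      rintro rfl
      have := hl'.1
      simp at this
    have hlen : 1 ≤ l.length := List.length_pos_of_ne_nil hne
    have h1 : (l.map (ps p)) ∈ (Yp D p q).K (l.length - 1) := by
      rw [mem_Yp hpm, List.length_map, List.map_map]
      have e : (pi p) ∘ (ps p) = id := by
        funext v
        exact pi_ps p v
      rw [e, List.map_id]
      exact ⟨by omega, hl'⟩
    have h2 := hlong _ _ h1
    have h3 : 1 / c1 * δ * (c1 / δ) = 1 := by field_simp
    calc (1 : ℝ) = 1 / c1 * δ * (c1 / δ) := h3.symm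
      _ ≤ C * δ * ((l.length - 1 : ℕ) : ℝ) :=
          mul_le_mul (mul_le_mul_of_nonneg_right hCc hδ.le) h2 hcd.le (by positivity)
  intro V F hV hF hU
  -- the error term
  have hbad : Ex (Yp D p q) x D'.card (bd (Yp D p q) (2 * ω)) ≤ C0 * θ ^ n1 :=
    hbadb D p q x D'.card n1 hpm hx hn1' hKn
  have herr : 2 * Ex (Yp D p q) x D'.card (bd (Yp D p q) (2 * ω)) +
      Real.exp (-(ω * n1 / κ)) * Zx x D p q ≤
      G * Real.exp (-(1 / (C * δ))) * Zx x D p q := by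
    have e1 : s ^ n1 ≤ Real.exp (-(lam * c1 / δ)) := by
      have h1 : s ^ n1 = Real.exp (-(lam * n1)) := by
        rw [hlam, neg_mul, neg_neg, mul_comm, Real.exp_nat_mul, Real.exp_log hs0]
      rw [h1]
      exact exp_num hlam0.le hn1c
    have e2 : s ^ n1 * c1 ^ C₁ ≤ B * Zx x D p q := by
      have h1 : (c1 / δ) ^ C₁ ≤ (n1 : ℝ) ^ C₁ := pow_le_pow_left₀ hcd.le hn1c _
      have h2 : s ^ n1 * (c1 / δ) ^ C₁ ≤ B := by
        refine (mul_le_mul_of_nonneg_left h1 (by positivity)).trans ?_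
        rw [mul_comm]
        exact hB n1
      calc s ^ n1 * c1 ^ C₁ = s ^ n1 * (c1 / δ) ^ C₁ * δ ^ C₁ := by
            rw [div_pow]
            field_simp
        _ ≤ B * Zx x D p q := mul_le_mul h2 hZlow (by positivity) hB0
    have e3 : Real.exp (-(lam * c1 / δ)) ≤ Real.exp (-(1 / (C * δ))) := by
      refine Real.exp_le_exp.2 (neg_le_neg ?_)
      exact num_b hc2pos hCpos hCc2 (by rw [hc2]; exact min_le_left _ _) hδ
    have e4 : Real.exp (-(ω * n1 / κ)) ≤ Real.exp (-(1 / (C * δ))) := by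
      have h0 : ω * n1 / κ = ω / κ * n1 := by ring
      rw [h0]
      refine (exp_num (by positivity) hn1c).trans (Real.exp_le_exp.2 (neg_le_neg ?_))
      exact num_b hc2pos hCpos hCc2 (by rw [hc2]; exact min_le_right _ _) hδ
    have e5 : θ ^ n1 ≤ B / c1 ^ C₁ * Real.exp (-(1 / (C * δ))) * Zx x D p q := by
      rw [← hss, mul_pow]
      have h1 : s ^ n1 ≤ B / c1 ^ C₁ * Zx x D p q := by
        rw [div_mul_eq_mul_div, le_div_iff₀ (by positivity)]
        exact e2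
      calc s ^ n1 * s ^ n1 ≤ B / c1 ^ C₁ * Zx x D p q * Real.exp (-(1 / (C * δ))) :=
            mul_le_mul h1 (e1.trans e3) (by positivity) (by positivity)
        _ = _ := by ring
    have e6 : 2 * (C0 * θ ^ n1) ≤
        2 * C0 * B / c1 ^ C₁ * Real.exp (-(1 / (C * δ))) * Zx x D p q := by
      have := mul_le_mul_of_nonneg_left e5 (show 0 ≤ 2 * C0 by positivity)
      refine le_trans (le_of_eq ?_) (this.trans (le_of_eq ?_)) <;> ring
    have e7 := mul_le_mul_of_nonneg_right e4 hZ.le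
    rw [hG, add_mul, add_mul, one_mul]
    linarith
  have hGexp : 0 ≤ G * Real.exp (-(1 / (C * δ))) := by
    rw [hG]
    positivity
  -- the abstract estimate
  have hcore : ∀ (ψ β β' : ℕ → ℝ) (B' : ℝ), 0 ≤ B' →
      (∀ n u : ℕ, |∑ j ∈ range (n + 1), (n.choose j : ℝ) * (x ^ 2) ^ j * ψ (u + 2 * j)| ≤
        β n * (1 + x ^ 2) ^ n) →
      (∀ n, 0 ≤ β n ∧ β n ≤ B') → (∀ m, 0 ≤ β' m) →
      (∀ m n : ℕ, ω * (m + 1) ≤ κ * n → β n ≤ β' m) →
      |Mx x D p q (fun l => F l * ψ (l.length - 1))| ≤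
        Mx x D p q (fun l => |F l| * β' (l.length - 1)) +
          B' * (G * Real.exp (-(1 / (C * δ)))) := by
    intro ψ β β' B' hB' hψ hβ hβ0 hβ'
    have hmm := hmain (ruleD Hex.rule (Dp D p)) le_rfl (by show 1 ≤ 2; norm_num) (ps p q)
      D'.card x hx0 hKbig (V.image (ps p)) ω n1 hω (by
        have h1 : ((V.image (ps p)).card : ℝ) ≤ V.card := by exact_mod_cast card_image_le
        rw [← hCC]
        refine (mul_le_mul_of_nonneg_left h1 hCC0).trans ?_
        refine le_trans ?_ (mul_le_mul_of_nonneg_left hn1c hω.le)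
        have h2 : CC ≤ C * (ω * c1) := by
          rwa [div_le_iff₀ (by positivity)] at hCV
        rw [mul_div_assoc', le_div_iff₀ hδ]
        calc CC * V.card * δ ≤ C * (ω * c1) * V.card * δ := by
              refine mul_le_mul_of_nonneg_right (mul_le_mul_of_nonneg_right h2 ?_) hδ.le
              exact Nat.cast_nonneg _
          _ = ω * c1 * (C * δ * V.card) := by ring
          _ ≤ ω * c1 * 1 := mul_le_mul_of_nonneg_left hV (by positivity)
          _ = ω * c1 := mul_one _) hKn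
      (fun w => F (w.map (pi p))) ψ β β' B' (by
        intro m w hw
        refine hF _ ?_
        rw [traj_eq]
        exact ((mem_Yp hpm).1 hw).2) (by
        intro m w hw z hz hzV
        have hw' : w ∈ (Yp D p q).K m := hw
        obtain ⟨L, R, u1, u2, u3, u4⟩ := ins_map' hw' hz
        have t1 : w.map (pi p) ∈ Traj D p q := by
          rw [traj_eq]
          exact ((mem_Yp hpm).1 hw).2
        have t2 : (Rule.rep w z.1 z.2).map (pi p) ∈ Traj D p q := by
          rw [traj_eq]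
          exact ((mem_Yp hpm).1 ((Yp D p q).ins_K m w z hw' hz)).2
        show F ((Rule.rep w z.1 z.2).map (pi p)) = F (w.map (pi p))
        rw [u3] at t1 ⊢
        rw [u4] at t2 ⊢
        refine hU L _ _ R (by rw [List.length_map]; exact u1) (by rw [List.length_map]; exact u2)
          ?_ t1 t2
        intro v hv hvV
        rw [← List.map_append, List.mem_map] at hv
        obtain ⟨y, hy, rfl⟩ := hv
        refine hzV y hy (mem_image.2 ⟨pi p y, hvV, ps_pi p y⟩)) hψ hβ hβ0 hβ'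
    have hmm' : |Ex (Yp D p q) x D'.card (fun m w => F (w.map (pi p)) * ψ m)| ≤
      Ex (Yp D p q) x D'.card (fun m w => |F (w.map (pi p))| * β' m) +
      B' * (2 * Ex (Yp D p q) x D'.card (bd (Yp D p q) (2 * ω)) +
        Real.exp (-(ω * n1 / κ)) * Ex (Yp D p q) x D'.card (fun _ _ => 1)) := hmm
    rw [← Zx_eq hpm D' hD'] at hmm'
    have e1 : Mx x D p q (fun l => F l * ψ (l.length - 1)) =
        Ex (Yp D p q) x D'.card (fun m w => F (w.map (pi p)) * ψ m) / Zx x D p q := by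
      unfold Mx
      rw [sumx_eq hpm D' hD' x (fun m l => F l * ψ m)]
    have e2 : Mx x D p q (fun l => |F l| * β' (l.length - 1)) =
        Ex (Yp D p q) x D'.card (fun m w => |F (w.map (pi p))| * β' m) / Zx x D p q := by
      unfold Mx
      rw [sumx_eq hpm D' hD' x (fun m l => |F l| * β' m)]
    rw [e1, e2, abs_div, abs_of_pos hZ, div_le_iff₀ hZ, add_mul, div_mul_cancel₀ _ hZ.ne']
    refine hmm'.trans ?_
    have := mul_le_mul_of_nonneg_left herr hB'
    linarith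
  constructor
  · intro t φ
    have h1 := hcore (fun m => Real.cos (t * (m : ℝ) + φ))
      (fun n => Real.exp (-(5 / 18 * Real.sin t ^ 2 * n)))
      (fun m => Real.exp (-(Real.sin t ^ 2 * m / C))) 1 zero_le_one
      (fun n u => osc hy0 hy1 t φ n u) (fun n => ⟨(Real.exp_pos _).le, by
        rw [Real.exp_le_one_iff]
        have : 0 ≤ 5 / 18 * Real.sin t ^ 2 * n := by positivity
        linarith⟩) (fun m => (Real.exp_pos _).le) (by
        intro m n hmn
        refine Real.exp_le_exp.2 (neg_le_neg ?_)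
        have h2 : (m : ℝ) / C ≤ 5 / 18 * n := by
          rw [div_le_iff₀ hCpos]
          rw [div_le_iff₀ (by positivity)] at hCω
          have h3 : ω * m ≤ κ * n := by linarith
          have h4 : 18 * κ * n ≤ C * (5 * ω) * n :=
            mul_le_mul_of_nonneg_right hCω (Nat.cast_nonneg _)
          have h5 : 18 * (ω * m) ≤ C * (5 * ω) * n := by linarith
          have h6 : ω * (18 * m) ≤ ω * (5 * n * C) := by linarith
          have h7 := le_of_mul_le_mul_left h6 hω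
          linarith
        have h3 := mul_le_mul_of_nonneg_left h2 (sq_nonneg (Real.sin t))
        have e1 : Real.sin t ^ 2 * m / C = Real.sin t ^ 2 * (m / C) := by ring
        have e2 : 5 / 18 * Real.sin t ^ 2 * n = Real.sin t ^ 2 * (5 / 18 * n) := by ring
        rw [e1, e2]
        exact h3)
    refine h1.trans ?_
    rw [mul_add, one_mul]
    have hMx0 : 0 ≤ Mx x D p q (fun l => |F l| *
        Real.exp (-(Real.sin t ^ 2 * ((l.length - 1 : ℕ) : ℝ) / C))) := by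
      rw [Mx_eq x hfin]
      refine div_nonneg (Finset.sum_nonneg fun l _ => ?_) (Finset.sum_nonneg fun l _ => ?_)
      · positivity
      · positivity
    refine add_le_add ?_ (mul_le_mul_of_nonneg_right hCG (Real.exp_pos _).le)
    exact le_mul_of_one_le_left hMx0 (by linarith)
  · intro k g hg
    have hκω : 0 ≤ Real.sqrt (κ / ω) := Real.sqrt_nonneg _
    have h1 := hcore (fun m => ∑ i ∈ range (k + 1), (-1 : ℝ) ^ i * (k.choose i : ℝ) *
        g (m + 2 * i))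
      (fun n => C₂ k / Real.sqrt (n + 1) ^ k)
      (fun m => C₂ k * Real.sqrt (κ / ω) ^ k / Real.sqrt (m + 1) ^ k) (C₂ k) (hC₂ k).le
      (fun n u => hdif k n u (x ^ 2) g hy0 hy1 hg) (fun n => ⟨by
        have := hC₂ k
        positivity, by
        have h2 : (1 : ℝ) ≤ Real.sqrt (n + 1) := by
          rw [Real.one_le_sqrt]
          have : (0 : ℝ) ≤ n := Nat.cast_nonneg _
          linarith
        exact div_le_self (hC₂ k).le (one_le_pow₀ h2)⟩) (fun m => by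
        have := hC₂ k
        positivity) (by
        intro m n hmn
        have hn0 : (0 : ℝ) ≤ n := Nat.cast_nonneg _
        have hm0 : (0 : ℝ) ≤ m := Nat.cast_nonneg _
        have h2 : Real.sqrt (m + 1) ≤ Real.sqrt (κ / ω) * Real.sqrt (n + 1) := by
          rw [← Real.sqrt_mul (by positivity)]
          refine Real.sqrt_le_sqrt ?_
          rw [div_mul_eq_mul_div, le_div_iff₀ hω]
          linarith
        have h3 : Real.sqrt (m + 1) ^ k ≤ Real.sqrt (κ / ω) ^ k * Real.sqrt (n + 1) ^ k := by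
          rw [← mul_pow]
          exact pow_le_pow_left₀ (Real.sqrt_nonneg _) h2 k
        have h4 : 0 < Real.sqrt ((m : ℝ) + 1) := Real.sqrt_pos.2 (by linarith)
        have h5 : 0 < Real.sqrt ((n : ℝ) + 1) := Real.sqrt_pos.2 (by linarith)
        rw [div_le_div_iff₀ (by positivity) (by positivity)]
        have := mul_le_mul_of_nonneg_left h3 (hC₂ k).le
        linarith)
    refine h1.trans ?_
    have e1 : Mx x D p q (fun l => |F l| * (C₂ k * Real.sqrt (κ / ω) ^ k /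
        Real.sqrt (((l.length - 1 : ℕ) : ℝ) + 1) ^ k)) = C₂ k * Real.sqrt (κ / ω) ^ k *
        Mx x D p q (fun l => |F l| / Real.sqrt (((l.length - 1 : ℕ) : ℝ) + 1) ^ k) := by
      rw [Mx_eq x hfin, Mx_eq x hfin, ← mul_div_assoc, mul_sum]
      congr 1
      refine Finset.sum_congr rfl fun l _ => ?_
      ring
    rw [e1]
    have hM0 : 0 ≤ Mx x D p q (fun l => |F l| /
        Real.sqrt (((l.length - 1 : ℕ) : ℝ) + 1) ^ k) := by
      rw [Mx_eq x hfin]
      refine div_nonneg (Finset.sum_nonneg fun l _ => ?_) (Finset.sum_nonneg fun l _ => ?_)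
      · positivity
      · positivity
    have hG1 : 0 ≤ G := by rw [hG]; linarith
    have h2 : 0 ≤ C₂ k * G * Mx x D p q (fun l => |F l| /
        Real.sqrt (((l.length - 1 : ℕ) : ℝ) + 1) ^ k) :=
      mul_nonneg (mul_nonneg (hC₂ k).le hG1) hM0
    have h3 : 0 ≤ C₂ k * Real.sqrt (κ / ω) ^ k * Real.exp (-(1 / (C * δ))) := by
      have := hC₂ k
      positivity
    simp only [mul_add, add_mul]
    linarith

end Pool.Agent.N949.AO
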