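import Pool.Agent.N949.AO.Def
import Pool.Agent.N547.EG.SEL

/-!
# One family of switches which is good for most walks, for sums over all sizes
-/

set_option autoImplicit false

namespace Pool.Agent.N949.AO

open TH966.AK Finset
open scoped Classical

variable {A : P → P → Prop}

/-- the downward moves of `w` which avoid `V` -/
noncomputable def Pv (Z : Rule A) (V : Finset P) (w : List P) : Finset (List P × List P) :=
  (Z.B w).filter (fun q => ∀ x ∈ q.1 ++ q.2, x ∉ V)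

theorem mem_Pv {Z : Rule A} {V : Finset P} {w : List P} {q : List P × List P} :
    q ∈ Pv Z V w ↔ (Z.T q.1 q.2 ∧ Free q.2 q.1 w) ∧ ∀ x ∈ q.1 ++ q.2, x ∉ V := by
  unfold Pv
  rw [mem_filter, Z.mem_B]

/-- few moves meet `V` -/
theorem Pv_card (Z : Rule A) (V : Finset P) (w : List P) :
    (Z.B w).card ≤ (Pv Z V w).card + Z.CC * V.card := by
  have h1 : Z.B w ⊆ Pv Z V w ∪ V.biUnion Z.cand := by
    intro q hq
    rw [mem_union]
    by_cases h : ∀ x ∈ q.1 ++ q.2, x ∉ V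
    · left
      rw [mem_Pv]
      rw [Z.mem_B] at hq
      exact ⟨hq, h⟩
    · right
      push Not at h
      obtain ⟨x, hx, hxV⟩ := h
      rw [Z.mem_B] at hq
      rw [mem_biUnion]
      exact ⟨x, hxV, Z.mem_cand hq.1 hx⟩
  have h2 := (card_le_card h1).trans (card_union_le _ _)
  have h3 := card_biUnion_le_card_mul V Z.cand Z.c0 fun x _ => Z.card_cand x
  have h4 : Z.c0 ≤ Z.CC := by unfold Rule.CC; omega
  have h5 : V.card * Z.c0 ≤ Z.CC * V.card := by
    rw [mul_comm]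
    exact Nat.mul_le_mul_right _ h4
  omega

theorem select (d : ℕ) : ∃ κ : ℕ, 1 ≤ κ ∧ ∀ {A : P → P → Prop} (Z : Rule A), Z.CC ≤ d →
    ∀ (K : ℕ → Finset (List P)) (N : ℕ) (x : ℝ) (V : Finset P), 0 < x →
    ∃ L : Finset (List P × List P), CF Z L ∧ (∀ q ∈ L, ∀ z ∈ q.1 ++ q.2, z ∉ V) ∧
      ∑ m ∈ range N, x ^ m *
        (((K m).filter (fun w => κ * (Sl L w).card < (Pv Z V w).card)).card : ℝ) ≤
      ∑ m ∈ range N, x ^ m * ∑ w ∈ K m, Real.exp (-(((Pv Z V w).card : ℝ) / κ)) := by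
  obtain ⟨κ, hκ, h⟩ := Pool.Agent.N547.EG.Sel.sel d
  refine ⟨κ, hκ, fun {A} Z hd K N x V hx => ?_⟩
  obtain ⟨U, hU⟩ : ∃ U, U = ((range N).biUnion K).biUnion (Pv Z V) := ⟨_, rfl⟩
  have hUm : ∀ q ∈ U, Z.T q.1 q.2 ∧ ∀ x ∈ q.1 ++ q.2, x ∉ V := by
    intro q hq
    rw [hU, mem_biUnion] at hq
    obtain ⟨w, -, hw⟩ := hq
    rw [mem_Pv] at hw
    exact ⟨hw.1.1, hw.2⟩
  obtain ⟨ι, i1, i2, Λ, h1, h2⟩ := h (List P × List P) U Meet
    (fun q q' ⟨x, hx, hx'⟩ => ⟨x, hx', hx⟩) (by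
      intro q hq
      obtain ⟨p, U0, h3⟩ := List.exists_cons_of_ne_nil (Rule.ne_nil (Z.pair _ _ (hUm q hq).1))
      refine le_trans (card_le_card (t := Z.near p) ?_) ((Z.card_near p).trans hd)
      intro q' hq'
      rw [mem_filter] at hq'
      obtain ⟨hq', x, hx, hx'⟩ := hq'
      exact Z.mem_near (hUm q hq).1 (hUm q' hq').1 (by rw [h3]; simp) hx hx')
  have hcount : ∀ m ∈ range N, ∀ w ∈ K m,
      ((univ.filter (fun i : ι => κ * (Sl (Λ i) w).card < (Pv Z V w).card)).card : ℝ) ≤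
        Real.exp (-(((Pv Z V w).card : ℝ) / κ)) * Fintype.card ι := by
    intro m hm w hw
    refine le_trans ?_ (h2 (Pv Z V w) ?_)
    · rw [Nat.cast_le]
      refine card_le_card fun i hi => ?_
      rw [mem_filter] at hi ⊢
      refine ⟨hi.1, lt_of_le_of_lt (Nat.mul_le_mul_left _ (card_le_card fun q hq => ?_)) hi.2⟩
      have hq' := (@Finset.mem_inter _ (fun a b => Classical.propDecidable (a = b)) _ _ _).1 hq
      rw [mem_Pv] at hq'
      unfold Sl
      rw [mem_filter]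
      exact ⟨hq'.1, Or.inr hq'.2.1.2⟩
    · intro q hq
      rw [hU, mem_biUnion]
      exact ⟨w, mem_biUnion.2 ⟨m, hm, hw⟩, hq⟩
  have havg : ∑ i : ι, ∑ m ∈ range N, x ^ m *
      (((K m).filter (fun w => κ * (Sl (Λ i) w).card < (Pv Z V w).card)).card : ℝ) ≤
      ∑ _i : ι, ∑ m ∈ range N, x ^ m * ∑ w ∈ K m, Real.exp (-(((Pv Z V w).card : ℝ) / κ)) := by
    rw [sum_comm, sum_const, card_univ, nsmul_eq_mul, mul_sum]
    refine sum_le_sum fun m hm => ?_
    rw [← mul_sum]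
    have e1 : ∑ i : ι,
        (((K m).filter (fun w => κ * (Sl (Λ i) w).card < (Pv Z V w).card)).card : ℝ) =
        ∑ w ∈ K m,
          ((univ.filter (fun i : ι => κ * (Sl (Λ i) w).card < (Pv Z V w).card)).card : ℝ) := by
      simp only [card_filter, Nat.cast_sum]
      rw [sum_comm]
    rw [e1, mul_left_comm]
    refine mul_le_mul_of_nonneg_left ?_ (by positivity)
    rw [mul_sum]
    refine sum_le_sum fun w hw => ?_
    rw [mul_comm]
    exact hcount m hm w hw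
  obtain ⟨i, -, hi⟩ := exists_le_of_sum_le univ_nonempty havg
  refine ⟨Λ i, ⟨fun q hq => (hUm q ((h1 i).1 hq)).1, (h1 i).2⟩,
    fun q hq => (hUm q ((h1 i).1 hq)).2, hi⟩

end Pool.Agent.N949.AO
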