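import Pool.Agent.N949.AO.Cls
import Pool.Agent.N949.AO.Sel
import Pool.Agent.N97.AO.TG
import Pool.Agent.R131.LS.Hex

/-!
# Walks in a domain between two points: averages of functions of the number of steps
-/

set_option autoImplicit false

namespace Pool.Agent.N949.AO

open TH966.AK Finset Pool.Agent.R131.LS
open scoped Classical

theorem main_le (d : ℕ) : ∃ κ : ℕ, 1 ≤ κ ∧ ∀ {A : P → P → Prop} (Z : Rule A), Z.CC ≤ d →
    1 ≤ Z.s → ∀ (e : P) (N : ℕ) (x : ℝ), 0 < x → (∀ m, N ≤ m → (sysE Z e).K m = ∅) →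
    ∀ (V : Finset P) (ω : ℝ) (n1 : ℕ), 0 < ω → (d : ℝ) * V.card ≤ ω * n1 →
    (∀ m, m < n1 → (sysE Z e).K m = ∅) →
    ∀ (F : List P → ℝ) (ψ β β' : ℕ → ℝ) (B : ℝ), (∀ m, ∀ w ∈ (sysE Z e).K m, |F w| ≤ 1) →
    (∀ m, ∀ w ∈ (sysE Z e).K m, ∀ q ∈ Z.S w, (∀ z ∈ q.1 ++ q.2, z ∉ V) →
      F (Rule.rep w q.1 q.2) = F w) →
    (∀ n u : ℕ, |∑ j ∈ range (n + 1), (n.choose j : ℝ) * (x ^ Z.s) ^ j * ψ (u + Z.s * j)| ≤
      β n * (1 + x ^ Z.s) ^ n) →
    (∀ n, 0 ≤ β n ∧ β n ≤ B) → (∀ m, 0 ≤ β' m) →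
    (∀ m n : ℕ, ω * (m + 1) ≤ κ * n → β n ≤ β' m) →
    |Ex (sysE Z e) x N (fun m w => F w * ψ m)| ≤
      Ex (sysE Z e) x N (fun m w => |F w| * β' m) +
      B * (2 * Ex (sysE Z e) x N (bd (sysE Z e) (2 * ω)) +
        Real.exp (-(ω * n1 / κ)) * Ex (sysE Z e) x N (fun _ _ => 1)) := by
  obtain ⟨κ, hκ, h⟩ := select d
  refine ⟨κ, hκ, ?_⟩
  intro A Z hd hs e N x hx hN V ω n1 hω hV hn1 F ψ β β' B hF1 hF2 hψ hβ hβ'0 hβ'
  obtain ⟨L, hL, hLV, hsel⟩ := h Z hd (sysE Z e).K N x V hx
  have hκ0 : (0 : ℝ) < κ := by exact_mod_cast hκ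
  have hB0 : 0 ≤ B := (hβ 0).1.trans (hβ 0).2
  have hp : PInv Z (fun w : List P => w.getLast? = some e) := by
    intro w q hw hT hf
    dsimp only
    rw [rep_last (Z.pair _ _ hT) hw hf]
  have hmem : ∀ n, ∀ w ∈ (sysE Z e).K n, w.length = n + 1 ∧ Walk A w ∧ w.getLast? = some e := by
    intro n w hw
    have hw' : w ∈ (Kw A n).filter (fun w => w.getLast? = some e) := hw
    rw [mem_filter, Z.mem_K] at hw'
    exact ⟨hw'.1.1, hw'.1.2, hw'.2⟩
  have hTS : TS (sysE Z e).K Z.s (Sl L) (Oc L) (fun w q => Rule.rep w q.1 q.2)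
      (fun w q => Rule.rep w q.2 q.1) := by
    have h1 := Pool.Agent.N97.AO.tg Z hs L hL (fun w : List P => w.getLast? = some e) hp
    have h2 : (sysE Z e).K = fun n => @Finset.filter _ (fun w : List P => w.getLast? = some e)
        (fun a => Classical.propDecidable _) (Kw A n) := by
      funext n
      ext w
      have h3 : w ∈ (sysE Z e).K n ↔ w ∈ Kw A n ∧ w.getLast? = some e :=
        Finset.mem_filter
      rw [h3]
      exact (@Finset.mem_filter _ (fun w : List P => w.getLast? = some e)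
        (fun a => Classical.propDecidable _) _ _).symm
    rw [h2]
    exact h1
  have hlen : ∀ n, ∀ w ∈ (sysE Z e).K n, w.length - 1 = n := by
    intro n w hw
    have := (hmem n w hw).1
    omega
  have hInv : Inv (sysE Z e).K (Sl L) (Oc L) (fun w q => Rule.rep w q.1 q.2) F := by
    intro n w hw q hq hq'
    rw [Pool.Agent.N97.AO.mem_Sl] at hq
    rw [Pool.Agent.N97.AO.mem_Oc] at hq'
    have h1 : Free q.1 q.2 w := hq.2.resolve_right fun h => hq' ⟨hq.1, h⟩
    exact hF2 n w hw q (Z.mem_S.2 ⟨hL.1 q hq.1, h1⟩) (hLV q hq.1)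
  have hcl := class_le hTS (fun w => w.length - 1) hlen (N := N) hN hInv hx ψ β hψ
  have hcl' : |Ex (sysE Z e) x N (fun m w => F w * ψ m)| ≤
      Ex (sysE Z e) x N (fun _ w => |F w| * β (Sl L w).card) := hcl
  refine hcl'.trans ?_
  -- pointwise bound
  obtain ⟨b1, hb1⟩ : ∃ b1 : List P → ℝ, b1 = fun w =>
    if κ * (Sl L w).card < (Pv Z V w).card then (1 : ℝ) else 0 := ⟨_, rfl⟩
  have hb10 : ∀ w, 0 ≤ b1 w := by
    intro w
    rw [hb1]
    dsimp only
    split_ifs <;> norm_num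
  have hbd0 : ∀ m w, 0 ≤ bd (sysE Z e) (2 * ω) m w := by
    intro m w
    unfold bd
    split_ifs <;> norm_num
  have hBm : ∀ w : List P, ((sysE Z e).B w) = Z.B w := fun _ => rfl
  have hkey : ∀ m, ∀ w ∈ (sysE Z e).K m, bd (sysE Z e) (2 * ω) m w = 0 →
      ω * (m + 1) ≤ (Pv Z V w).card := by
    intro m w hw h0
    have hm : n1 ≤ m := by
      by_contra hcon
      rw [hn1 m (not_le.1 hcon)] at hw
      exact absurd hw (Finset.notMem_empty _)
    have hm' : (n1 : ℝ) ≤ m := by exact_mod_cast hm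
    unfold bd at h0
    have h2 : ¬ (((Z.B w).card : ℝ) < 2 * ω * ((m : ℝ) + 1)) := by
      intro hcon
      rw [if_pos (by rw [hBm]; exact hcon)] at h0
      exact one_ne_zero h0
    have h3 : ((Z.B w).card : ℝ) ≤ (Pv Z V w).card + Z.CC * V.card := by
      exact_mod_cast Pv_card Z V w
    have h4 : (Z.CC : ℝ) * V.card ≤ d * V.card :=
      mul_le_mul_of_nonneg_right (by exact_mod_cast hd) (Nat.cast_nonneg _)
    have h5 : ω * n1 ≤ ω * (m + 1) := mul_le_mul_of_nonneg_left (by linarith) hω.le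
    linarith [not_lt.1 h2]
  have hpt : ∀ m, ∀ w ∈ (sysE Z e).K m, |F w| * β (Sl L w).card ≤
      |F w| * β' m + B * (bd (sysE Z e) (2 * ω) m w + b1 w) := by
    intro m w hw
    have hF0 := abs_nonneg (F w)
    have hF1' := hF1 m w hw
    have h1 : |F w| * β (Sl L w).card ≤ B := by
      calc |F w| * β (Sl L w).card ≤ 1 * B :=
            mul_le_mul hF1' (hβ _).2 (hβ _).1 zero_le_one
        _ = B := one_mul _
    have h2 : 0 ≤ |F w| * β' m := mul_nonneg hF0 (hβ'0 m)
    by_cases c1 : κ * (Sl L w).card < (Pv Z V w).card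
    · have h3 : b1 w = 1 := by rw [hb1]; exact if_pos c1
      rw [h3]
      have h4 := hbd0 m w
      nlinarith
    · by_cases c2 : bd (sysE Z e) (2 * ω) m w = 0
      · have h3 := hkey m w hw c2
        have h4 : ((Pv Z V w).card : ℝ) ≤ κ * (Sl L w).card := by exact_mod_cast not_lt.1 c1
        have h5 := hβ' m (Sl L w).card (h3.trans h4)
        have h6 := mul_le_mul_of_nonneg_left h5 hF0
        have h7 : 0 ≤ B * (bd (sysE Z e) (2 * ω) m w + b1 w) :=
          mul_nonneg hB0 (add_nonneg (hbd0 m w) (hb10 w))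
        linarith
      · have h3 : bd (sysE Z e) (2 * ω) m w = 1 := by
          unfold bd at c2 ⊢
          split_ifs at c2 ⊢ with h8
          · rfl
          · exact absurd rfl c2
        rw [h3]
        have h4 := hb10 w
        nlinarith
  have hsum : Ex (sysE Z e) x N (fun _ w => |F w| * β (Sl L w).card) ≤
      Ex (sysE Z e) x N (fun m w => |F w| * β' m) +
        B * (Ex (sysE Z e) x N (bd (sysE Z e) (2 * ω)) + Ex (sysE Z e) x N (fun _ w => b1 w)) := by
    unfold Ex
    rw [← sum_add_distrib, mul_sum, ← sum_add_distrib]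
    refine sum_le_sum fun m _ => ?_
    rw [← mul_add, mul_left_comm, ← mul_add]
    refine mul_le_mul_of_nonneg_left ?_ (by positivity)
    rw [← sum_add_distrib, mul_sum, ← sum_add_distrib]
    exact sum_le_sum fun w hw => hpt m w hw
  -- the walks which the family does not hit well
  have hb1s : Ex (sysE Z e) x N (fun _ w => b1 w) ≤
      Ex (sysE Z e) x N (bd (sysE Z e) (2 * ω)) +
        Real.exp (-(ω * n1 / κ)) * Ex (sysE Z e) x N (fun _ _ => 1) := by
    have h1 : Ex (sysE Z e) x N (fun _ w => b1 w) = ∑ m ∈ range N, x ^ m *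
        ((((sysE Z e).K m).filter
          (fun w => κ * (Sl L w).card < (Pv Z V w).card)).card : ℝ) := by
      unfold Ex
      refine sum_congr rfl fun m _ => ?_
      rw [hb1, ← Finset.sum_filter, sum_const, nsmul_one]
    rw [h1]
    refine hsel.trans ?_
    unfold Ex
    rw [mul_sum, ← sum_add_distrib]
    refine sum_le_sum fun m _ => ?_
    rw [mul_left_comm, ← mul_add]
    refine mul_le_mul_of_nonneg_left ?_ (by positivity)
    rw [mul_sum, ← sum_add_distrib]
    refine sum_le_sum fun w hw => ?_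
    by_cases c2 : bd (sysE Z e) (2 * ω) m w = 0
    · rw [c2, zero_add, mul_one]
      refine Real.exp_le_exp.2 (neg_le_neg ?_)
      refine div_le_div_of_nonneg_right ((?_ : ω * n1 ≤ ω * (m + 1)).trans (hkey m w hw c2))
        hκ0.le
      have hm : n1 ≤ m := by
        by_contra hcon
        rw [hn1 m (not_le.1 hcon)] at hw
        exact absurd hw (Finset.notMem_empty _)
      have hm' : (n1 : ℝ) ≤ m := by exact_mod_cast hm
      exact mul_le_mul_of_nonneg_left (by linarith) hω.le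
    · have h3 : bd (sysE Z e) (2 * ω) m w = 1 := by
        unfold bd at c2 ⊢
        split_ifs at c2 ⊢ with h8
        · rfl
        · exact absurd rfl c2
      rw [h3]
      have h4 : Real.exp (-(((Pv Z V w).card : ℝ) / κ)) ≤ 1 := by
        rw [Real.exp_le_one_iff]
        have : 0 ≤ ((Pv Z V w).card : ℝ) / κ := by positivity
        linarith
      have h5 := (Real.exp_pos (-(ω * n1 / κ))).le
      linarith
  have h9 := mul_le_mul_of_nonneg_left hb1s hB0
  refine hsum.trans ?_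
  linarith

end Pool.Agent.N949.AO
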