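import Pool.Agent.N691.AO.CL

/-!
# Sums over the classes of a system of switches
-/

set_option autoImplicit false

namespace Pool.Agent.N949.AO

open TH966.AK Finset
open scoped Classical

section

variable {α κ : Type} {K : ℕ → Finset α} {s : ℕ} {Sl Oc : α → Finset κ} {on off : α → κ → α}

/-- the sum over the objects with given slots, invariant and reduced size -/
theorem fiber (hTS : TS K s Sl Oc on off) (len : α → ℕ) (hlen : ∀ n, ∀ w ∈ K n, len w = n)
    {N : ℕ} (hK : ∀ n, N ≤ n → K n = ∅) {F : α → ℝ} (hF : Inv K Sl Oc on F) (x : ℝ) (ψ : ℕ → ℝ)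
    (v : ℝ) (E : Finset κ) (u : ℕ) :
    ∑ w ∈ ((range N).biUnion K).filter
        (fun w => F w = v ∧ Sl w = E ∧ len w - s * (Oc w).card = u), x ^ len w * ψ (len w) =
      (((K u).filter (fun w => F w = v ∧ Sl w = E ∧ (Oc w).card = 0)).card : ℝ) * x ^ u *
        ∑ j ∈ range (E.card + 1), (E.card.choose j : ℝ) * (x ^ s) ^ j * ψ (u + s * j) := by
  have hmaps : ∀ w ∈ ((range N).biUnion K).filter
      (fun w => F w = v ∧ Sl w = E ∧ len w - s * (Oc w).card = u),
      (Oc w).card ∈ range (E.card + 1) := by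
    intro w hw
    rw [mem_filter, mem_biUnion] at hw
    obtain ⟨⟨m, -, hm⟩, -, h2, -⟩ := hw
    rw [mem_range, Nat.lt_succ_iff, ← h2]
    exact Finset.card_le_card (hTS.sub m w hm)
  rw [← sum_fiberwise_of_maps_to hmaps, mul_sum]
  refine sum_congr rfl fun j _ => ?_
  have hset : (((range N).biUnion K).filter
      (fun w => F w = v ∧ Sl w = E ∧ len w - s * (Oc w).card = u)).filter
      (fun w => (Oc w).card = j) =
      (K (u + s * j)).filter (fun w => F w = v ∧ Sl w = E ∧ (Oc w).card = j) := by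
    ext w
    simp only [mem_filter, mem_biUnion, mem_range]
    constructor
    · rintro ⟨⟨⟨m, hm, hw⟩, h1, h2, h3⟩, h4⟩
      have h5 := Pool.Agent.N691.AO.len K s Sl Oc on off hTS m w hw
      rw [hlen m w hw, h4] at h3
      rw [h4] at h5
      have h6 : u + s * j = m := by omega
      rw [h6]
      exact ⟨hw, h1, h2, h4⟩
    · rintro ⟨hw, h1, h2, h4⟩
      have h5 : u + s * j < N := by
        by_contra hcon
        rw [hK _ (not_lt.1 hcon)] at hw
        exact absurd hw (Finset.notMem_empty _)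
      refine ⟨⟨⟨u + s * j, h5, hw⟩, h1, h2, ?_⟩, h4⟩
      rw [hlen _ w hw, h4]
      omega
  rw [hset]
  have hconst : ∀ w ∈ (K (u + s * j)).filter (fun w => F w = v ∧ Sl w = E ∧ (Oc w).card = j),
      x ^ len w * ψ (len w) = x ^ (u + s * j) * ψ (u + s * j) := by
    intro w hw
    rw [hlen _ w (mem_filter.1 hw).1]
  rw [sum_congr rfl hconst, sum_const, nsmul_eq_mul,
    Pool.Agent.N691.AO.cl K s Sl Oc on off hTS F hF v E u j]
  push_cast
  rw [pow_add, pow_mul]
  ring

/-- sums over all objects -/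
theorem flat (len : α → ℕ) (hlen : ∀ n, ∀ w ∈ K n, len w = n) (N : ℕ) (x : ℝ)
    (g : ℕ → α → ℝ) :
    ∑ m ∈ range N, x ^ m * ∑ w ∈ K m, g m w =
      ∑ w ∈ (range N).biUnion K, x ^ len w * g (len w) w := by
  rw [sum_biUnion]
  · refine sum_congr rfl fun m _ => ?_
    rw [mul_sum]
    exact sum_congr rfl fun w hw => by rw [hlen m w hw]
  · intro i _ j _ hij
    rw [Function.onFun, Finset.disjoint_left]
    intro w hw hw'
    exact hij ((hlen i w hw).symm.trans (hlen j w hw'))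

theorem class_le (hTS : TS K s Sl Oc on off) (len : α → ℕ) (hlen : ∀ n, ∀ w ∈ K n, len w = n)
    {N : ℕ} (hK : ∀ n, N ≤ n → K n = ∅) {F : α → ℝ} (hF : Inv K Sl Oc on F) {x : ℝ}
    (hx : 0 < x) (ψ β : ℕ → ℝ)
    (hβ : ∀ n u : ℕ, |∑ j ∈ range (n + 1), (n.choose j : ℝ) * (x ^ s) ^ j * ψ (u + s * j)| ≤
      β n * (1 + x ^ s) ^ n) :
    |∑ m ∈ range N, x ^ m * ∑ w ∈ K m, F w * ψ m| ≤
      ∑ m ∈ range N, x ^ m * ∑ w ∈ K m, |F w| * β (Sl w).card := by
  have e1 := flat len hlen N x (fun m w => F w * ψ m)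
  have e2 := flat len hlen N x (fun _ w => |F w| * β (Sl w).card)
  rw [e1, e2]
  obtain ⟨X, hX⟩ : ∃ X, X = (range N).biUnion K := ⟨_, rfl⟩
  rw [← hX]
  obtain ⟨key, hkey⟩ : ∃ key : α → ℝ × Finset κ × ℕ,
    key = fun w => (F w, Sl w, len w - s * (Oc w).card) := ⟨_, rfl⟩
  have hmaps : ∀ w ∈ X, key w ∈ X.image key := fun w hw => mem_image_of_mem _ hw
  rw [← sum_fiberwise_of_maps_to hmaps, ← sum_fiberwise_of_maps_to hmaps]
  refine (abs_sum_le_sum_abs _ _).trans (sum_le_sum fun c _ => ?_)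
  obtain ⟨v, E, u⟩ := c
  have hfil : X.filter (fun w => key w = (v, E, u)) =
      X.filter (fun w => F w = v ∧ Sl w = E ∧ len w - s * (Oc w).card = u) := by
    refine filter_congr fun w _ => ?_
    rw [hkey]
    simp only [Prod.mk.injEq]
  rw [hfil]
  have f1 := fiber hTS len hlen hK hF x ψ v E u
  have f2 := fiber hTS len hlen hK hF x (fun _ => 1) v E u
  rw [← hX] at f1 f2
  have g1 : ∑ w ∈ X.filter (fun w => F w = v ∧ Sl w = E ∧ len w - s * (Oc w).card = u),
      x ^ len w * (F w * ψ (len w)) = v * ∑ w ∈ X.filter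
        (fun w => F w = v ∧ Sl w = E ∧ len w - s * (Oc w).card = u), x ^ len w * ψ (len w) := by
    rw [mul_sum]
    refine sum_congr rfl fun w hw => ?_
    rw [(mem_filter.1 hw).2.1]
    ring
  have g2 : ∑ w ∈ X.filter (fun w => F w = v ∧ Sl w = E ∧ len w - s * (Oc w).card = u),
      x ^ len w * (|F w| * β (Sl w).card) = |v| * β E.card * ∑ w ∈ X.filter
        (fun w => F w = v ∧ Sl w = E ∧ len w - s * (Oc w).card = u),
        x ^ len w * (fun _ => (1 : ℝ)) (len w) := by
    rw [mul_sum]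
    refine sum_congr rfl fun w hw => ?_
    rw [(mem_filter.1 hw).2.1, (mem_filter.1 hw).2.2.1]
    ring
  rw [g1, g2, f1, f2]
  have g3 : ∑ j ∈ range (E.card + 1), (E.card.choose j : ℝ) * (x ^ s) ^ j * (1 : ℝ) =
      (1 + x ^ s) ^ E.card := by
    rw [add_comm 1 (x ^ s), add_pow]
    refine sum_congr rfl fun j _ => ?_
    rw [one_pow]
    ring
  rw [g3, abs_mul, abs_mul, abs_of_nonneg (show (0 : ℝ) ≤
    (((K u).filter (fun w => F w = v ∧ Sl w = E ∧ (Oc w).card = 0)).card : ℝ) * x ^ u by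
      positivity)]
  have h1 := hβ E.card u
  have h2 : 0 ≤ |v| * ((((K u).filter
    (fun w => F w = v ∧ Sl w = E ∧ (Oc w).card = 0)).card : ℝ) * x ^ u) := by positivity
  have h3 := mul_le_mul_of_nonneg_left h1 h2
  refine le_trans (le_of_eq ?_) (h3.trans (le_of_eq ?_)) <;> ring

end

end Pool.Agent.N949.AO
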