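import Pool.Agent.TH966.AK.Win

/-!
# Project AO2 (helper949): systems of independent switches; statements of the tasks

The objects are the walks of a class `K n` (lists of points, as in `Pool/Agent/TH966/AK/Win.lean`);
a switch is a move `q = (U, U')` of a local rule `Z : Rule A`, from a finite family `L` of moves no
two of which have a common point.  The switch is off if the window `q.1` is in the walk and the new
points of `q.2` are not (`Free q.1 q.2 w`), and on if `Free q.2 q.1 w`.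
-/

set_option autoImplicit false

namespace Pool.Agent.N949.AO

open TH966.AK Finset
open scoped Classical

noncomputable section

/-- Objects `K n` of size `n` with independent switches: `Sl w` is the set of the switches of `w`,
`Oc w` the set of those which are on; `on w q` is obtained from `w` by turning `q` on, `off w q` by
turning `q` off; turning on adds `s` to the size. -/
structure TS {α κ : Type} (K : ℕ → Finset α) (s : ℕ) (Sl Oc : α → Finset κ)
    (on off : α → κ → α) : Prop where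
  sub : ∀ n, ∀ w ∈ K n, Oc w ⊆ Sl w
  on_K : ∀ n, ∀ w ∈ K n, ∀ q ∈ Sl w, q ∉ Oc w → on w q ∈ K (n + s)
  on_Sl : ∀ n, ∀ w ∈ K n, ∀ q ∈ Sl w, q ∉ Oc w → Sl (on w q) = Sl w
  on_Oc : ∀ n, ∀ w ∈ K n, ∀ q ∈ Sl w, q ∉ Oc w → Oc (on w q) = insert q (Oc w)
  off_on : ∀ n, ∀ w ∈ K n, ∀ q ∈ Sl w, q ∉ Oc w → off (on w q) q = w
  off_K : ∀ n, ∀ w ∈ K n, ∀ q ∈ Oc w, ∃ m, m + s = n ∧ off w q ∈ K m
  off_Sl : ∀ n, ∀ w ∈ K n, ∀ q ∈ Oc w, Sl (off w q) = Sl w
  off_Oc : ∀ n, ∀ w ∈ K n, ∀ q ∈ Oc w, Oc (off w q) = (Oc w).erase q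
  on_off : ∀ n, ∀ w ∈ K n, ∀ q ∈ Oc w, on (off w q) q = w

/-- the function `F` does not depend on the switches -/
def Inv {α κ β : Type} (K : ℕ → Finset α) (Sl Oc : α → Finset κ) (on : α → κ → α) (F : α → β) :
    Prop :=
  ∀ n, ∀ w ∈ K n, ∀ q ∈ Sl w, q ∉ Oc w → F (on w q) = F w

/-- LEN: the size is at least `s` times the number of the switches which are on -/
def S_LEN : Prop :=
  ∀ {α κ : Type} (K : ℕ → Finset α) (s : ℕ) (Sl Oc : α → Finset κ) (on off : α → κ → α),
    TS K s Sl Oc on off → ∀ n, ∀ w ∈ K n, s * (Oc w).card ≤ n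

/-- CL: the sizes of the classes -/
def S_CL : Prop :=
  ∀ {α κ β : Type} (K : ℕ → Finset α) (s : ℕ) (Sl Oc : α → Finset κ) (on off : α → κ → α),
    TS K s Sl Oc on off → ∀ F : α → β, Inv K Sl Oc on F → ∀ (v : β) (E : Finset κ) (u i : ℕ),
      ((K (u + s * i)).filter (fun w => F w = v ∧ Sl w = E ∧ (Oc w).card = i)).card =
        E.card.choose i *
          ((K u).filter (fun w => F w = v ∧ Sl w = E ∧ (Oc w).card = 0)).card

/-- MV: turning `t` switches on, or off -/
def S_MV : Prop :=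
  ∀ {α κ : Type} (K : ℕ → Finset α) (s : ℕ) (Sl Oc : α → Finset κ) (on off : α → κ → α),
    1 ≤ s → TS K s Sl Oc on off → ∀ (Q : ℕ → ℕ → Prop) (M : ℝ) (N t : ℕ), 0 ≤ M →
    ((∀ S i, Q S i → i ≤ S → (S.choose i : ℝ) ≤ M * (S.choose (i + t) : ℝ)) →
      (((K N).filter (fun w => Q (Sl w).card (Oc w).card)).card : ℝ) ≤
        M * ((K (N + s * t)).card : ℝ)) ∧
    ((∀ S i, Q S i → i ≤ S → t ≤ i ∧ (S.choose i : ℝ) ≤ M * (S.choose (i - t) : ℝ)) →
      (((K N).filter (fun w => Q (Sl w).card (Oc w).card)).card : ℝ) ≤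
        M * ((K (N - s * t)).card : ℝ))

/-- SEL: in a finite set `X` with a symmetric relation `R` (each element related to at most `Δ`
elements of `X`) there is a finite set of independent subsets `Λ i` such that every `P ⊆ X` is hit
well by all but an exponentially small proportion of them -/
def S_SEL : Prop :=
  ∀ Δ : ℕ, ∃ c : ℝ, 0 < c ∧ ∀ (σ : Type) (X : Finset σ) (R : σ → σ → Prop),
    (∀ q q', R q q' → R q' q) → (∀ q ∈ X, (X.filter (fun q' => R q q')).card ≤ Δ) →
    ∃ (ι : Type) (_ : Fintype ι) (_ : Nonempty ι) (Λ : ι → Finset σ),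
      (∀ i, Λ i ⊆ X ∧ ∀ q ∈ Λ i, ∀ q' ∈ Λ i, q ≠ q' → ¬ R q q') ∧
      ∀ P ⊆ X, ((univ.filter (fun i => ((Λ i ∩ P).card : ℝ) < c * P.card)).card : ℝ) ≤
        Real.exp (-(c * P.card)) * Fintype.card ι

variable {A : P → P → Prop}

/-- the moves have a common point -/
def Meet (q q' : List P × List P) : Prop := ∃ x, x ∈ q.1 ++ q.2 ∧ x ∈ q'.1 ++ q'.2

/-- a finite family of moves no two of which have a common point -/
def CF (Z : Rule A) (L : Finset (List P × List P)) : Prop :=
  (∀ q ∈ L, Z.T q.1 q.2) ∧ ∀ q ∈ L, ∀ q' ∈ L, q ≠ q' → ¬ Meet q q'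

/-- the switches of `w` which are on -/
def Oc (L : Finset (List P × List P)) (w : List P) : Finset (List P × List P) :=
  L.filter (fun q => Free q.2 q.1 w)

/-- the switches of `w` -/
def Sl (L : Finset (List P × List P)) (w : List P) : Finset (List P × List P) :=
  L.filter (fun q => Free q.1 q.2 w ∨ Free q.2 q.1 w)

/-- the property `p` of walks does not change under the moves -/
def PInv {β : Type} (Z : Rule A) (p : List P → β) : Prop :=
  ∀ (w : List P) (q : List P × List P), Walk A w → Z.T q.1 q.2 → Free q.1 q.2 w →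
    p (Rule.rep w q.1 q.2) = p w

/-- TG: the walks with the property `p` have the switches of `L` -/
def S_TG : Prop :=
  ∀ {A : P → P → Prop} (Z : Rule A), 1 ≤ Z.s → ∀ L : Finset (List P × List P), CF Z L →
    ∀ p : List P → Prop, PInv Z p →
      TS (fun n => (Kw A n).filter p) Z.s (Sl L) (Oc L) (fun w q => Rule.rep w q.1 q.2)
        (fun w q => Rule.rep w q.2 q.1)

/-- TV: iterated differences tested against binomial weights -/
def S_TV : Prop :=
  ∀ r : ℕ, ∃ C : ℝ, 0 < C ∧ ∀ (N : ℕ) (y : ℝ) (h : ℕ → ℝ), 1 ≤ N → 1 / 5 ≤ y → y ≤ 5 →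
    (∀ k, |h k| ≤ 1) →
    |∑ k ∈ range (N + 1), (N.choose k : ℝ) * y ^ k *
      ∑ i ∈ range (r + 1), (-1 : ℝ) ^ i * (r.choose i : ℝ) * h (k + i)| ≤
      C * (1 + y) ^ N / Real.sqrt N ^ r

end

end Pool.Agent.N949.AO
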